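import Pool.Agent.W5h40.Wlp.Types

set_option autoImplicit false

open MvPolynomial

namespace Pool.Agent.W5h40.Wlp

open Pool.Agent.Helper720.Pow

variable {K : Type*} [Field K] {n : ℕ}

lemma add_single_mem {d k i : ℕ} {p : Fin n →₀ ℕ} (hp : p ∈ Bs n d k i) {c : Fin n} :
    p + Finsupp.single c 1 ∈ Bs n d k (i + 1) ↔ fl d (p + Finsupp.single c 1) < k := by
  rw [mem_Bs] at hp ⊢
  rw [map_add, Finsupp.degree_single, hp.1]
  exact ⟨fun h => h.2, fun h => ⟨rfl, h⟩⟩

lemma sub_add_cancel_single {w : Fin n →₀ ℕ} {c : Fin n} (hc : w c ≠ 0) :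
    w - Finsupp.single c 1 + Finsupp.single c 1 = w := by
  have hle : Finsupp.single c 1 ≤ w := by
    rw [Finsupp.single_le_iff]
    omega
  exact tsub_add_cancel_of_le hle

/-- double counting of the pairs `(p, p + e_c)` -/
lemma sum_swap_pairs {d k i : ℕ} (g : (Fin n →₀ ℕ) → (Fin n →₀ ℕ) → K) :
    ∑ q ∈ Bs n d k (i + 1), ∑ c, (if q c = 0 then 0 else g q (q - Finsupp.single c 1)) =
      ∑ p ∈ Bs n d k i, ∑ c, (if fl d (p + Finsupp.single c 1) < k then
        g (p + Finsupp.single c 1) p else 0) := by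
  classical
  rw [Finset.sum_comm, Finset.sum_comm (s := Bs n d k i)]
  refine Finset.sum_congr rfl fun c _ => ?_
  have h1 : ∀ q : Fin n →₀ ℕ, (if q c = 0 then (0 : K) else g q (q - Finsupp.single c 1)) =
      if q c ≠ 0 then g q (q - Finsupp.single c 1) else 0 := by
    intro q
    by_cases h : q c = 0
    · rw [if_pos h, if_neg (not_not.2 h)]
    · rw [if_neg h, if_pos h]
  rw [Finset.sum_congr rfl fun q _ => h1 q, ← Finset.sum_filter, ← Finset.sum_filter]
  refine Finset.sum_bij' (fun q _ => q - Finsupp.single c 1) (fun p _ => p + Finsupp.single c 1)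
    ?_ ?_ ?_ ?_ ?_
  · intro q hq
    rw [Finset.mem_filter] at hq ⊢
    refine ⟨sub_mem_Bs hq.1 hq.2, ?_⟩
    rw [sub_add_cancel_single hq.2]
    exact (mem_Bs.1 hq.1).2
  · intro p hp
    rw [Finset.mem_filter] at hp ⊢
    refine ⟨(add_single_mem hp.1).2 hp.2, ?_⟩
    rw [Finsupp.add_apply, Finsupp.single_eq_same]
    omega
  · intro q hq
    rw [Finset.mem_filter] at hq
    exact sub_add_cancel_single hq.2
  · intro p _
    exact add_tsub_cancel_right _ _
  · intro q hq
    rw [Finset.mem_filter] at hq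
    show g q (q - Finsupp.single c 1) =
      g (q - Finsupp.single c 1 + Finsupp.single c 1) (q - Finsupp.single c 1)
    rw [sub_add_cancel_single hq.2]

/-- an integral matrix which is the identity modulo `r` is invertible over `K` -/
lemma det_ne_zero_of_mod [CharZero K] {N : Type*} [Fintype N] [DecidableEq N] {r : ℕ} (hr : 2 ≤ r)
    (A : Matrix N N ℤ) (hA : ∀ s t, ((A s t : ℤ) : ZMod r) = if s = t then 1 else 0) :
    (A.map (Int.castRingHom K)).det ≠ 0 := by
  have h0 : Fact (1 < r) := ⟨by omega⟩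
  have h1 : A.map (Int.castRingHom (ZMod r)) = 1 := by
    ext s t
    rw [Matrix.map_apply, Matrix.one_apply]
    exact hA s t
  have h2 : Int.castRingHom (ZMod r) A.det = 1 := by
    rw [RingHom.map_det, RingHom.mapMatrix_apply, h1, Matrix.det_one]
  have h3 : A.det ≠ 0 := by
    intro h
    rw [h, map_zero] at h2
    exact zero_ne_one h2
  rw [← RingHom.mapMatrix_apply, ← RingHom.map_det, eq_intCast]
  exact_mod_cast h3

/-- Injectivity from a left inverse modulo `r`. -/
theorem inj_of_left [CharZero K] {d k i r : ℕ} (hd : 1 ≤ d) (hr : 2 ≤ r)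
    (L : (Fin n →₀ ℕ) → (Fin n →₀ ℕ) → ℤ)
    (hL : ∀ s ∈ Bs n d k i, ∀ t ∈ Bs n d k i,
      (((∑ c, if fl d (t + Finsupp.single c 1) < k then L s (t + Finsupp.single c 1) else 0 : ℤ) :
        ℤ) : ZMod r) = if s = t then 1 else 0) : InjAt K n d k i 1 := by
  classical
  intro f hf hJ
  rw [mem_powIdeal hd] at hJ
  rw [pow_one] at hJ
  set A : Matrix ↥(Bs n d k i) ↥(Bs n d k i) ℤ := fun s t =>
    ∑ c, if fl d ((t : Fin n →₀ ℕ) + Finsupp.single c 1) < k then
      L s ((t : Fin n →₀ ℕ) + Finsupp.single c 1) else 0 with hA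
  have hdet := det_ne_zero_of_mod (K := K) hr A (by
    intro s t
    rw [hA]
    simp only
    rw [hL s s.2 t t.2]
    by_cases h : s = t
    · rw [if_pos h, if_pos (congrArg _ h)]
    · rw [if_neg h, if_neg (fun h' => h (Subtype.ext h'))])
  set x : ↥(Bs n d k i) → K := fun m => coeff (m : Fin n →₀ ℕ) f with hx
  have hx0 : (A.map (Int.castRingHom K)).mulVec x = 0 := by
    funext s
    rw [Pi.zero_apply, Matrix.mulVec, dotProduct]
    have h1 : ∀ t : ↥(Bs n d k i), (A.map (Int.castRingHom K)) s t * x t =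
        ∑ c, (if fl d ((t : Fin n →₀ ℕ) + Finsupp.single c 1) < k then
          (L s ((t : Fin n →₀ ℕ) + Finsupp.single c 1) : K) * coeff (t : Fin n →₀ ℕ) f else 0) := by
      intro t
      rw [Matrix.map_apply, hA, eq_intCast, hx]
      simp only
      rw [Int.cast_sum, Finset.sum_mul]
      refine Finset.sum_congr rfl fun c _ => ?_
      split_ifs
      · rfl
      · rw [Int.cast_zero, zero_mul]
    rw [Finset.sum_congr rfl fun t _ => h1 t]
    rw [Finset.sum_coe_sort (Bs n d k i) (fun t => ∑ c,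
      (if fl d (t + Finsupp.single c 1) < k then
          (L s (t + Finsupp.single c 1) : K) * coeff t f else 0)),
      ← sum_swap_pairs (fun q p => (L s q : K) * coeff p f)]
    refine Finset.sum_eq_zero fun q hq => ?_
    have h2 := hJ q (mem_Bs.1 hq).2
    rw [coeff_el_mul] at h2
    have h3 : (∑ c, if q c = 0 then 0 else (L s q : K) * coeff (q - Finsupp.single c 1) f) =
        (L s q : K) * ∑ c, if q c = 0 then 0 else coeff (q - Finsupp.single c 1) f := by
      rw [Finset.mul_sum]
      refine Finset.sum_congr rfl fun c _ => ?_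
      split_ifs
      · rw [mul_zero]
      · rfl
    rw [h3, h2, mul_zero]
  have hx1 := Matrix.eq_zero_of_mulVec_eq_zero hdet hx0
  apply mem_of_coeff hd hf
  intro w hw hfl
  exact congrFun hx1 ⟨w, mem_Bs.2 ⟨hw, hfl⟩⟩

/-- Surjectivity from a right inverse modulo `r`. -/
theorem surj_of_right [CharZero K] {d k i r : ℕ} (hd : 1 ≤ d) (hr : 2 ≤ r)
    (R : (Fin n →₀ ℕ) → (Fin n →₀ ℕ) → ℤ)
    (hR : ∀ s ∈ Bs n d k (i + 1), ∀ t ∈ Bs n d k (i + 1),
      (((∑ c, if t c = 0 then 0 else R s (t - Finsupp.single c 1) : ℤ) : ℤ) : ZMod r) =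
        if s = t then 1 else 0) : SurjAt K n d k i 1 := by
  classical
  apply Tmap_surj hd
  set A : Matrix ↥(Bs n d k (i + 1)) ↥(Bs n d k (i + 1)) ℤ := fun t s =>
    ∑ c, if (t : Fin n →₀ ℕ) c = 0 then 0 else R s ((t : Fin n →₀ ℕ) - Finsupp.single c 1) with hA
  have hdet := det_ne_zero_of_mod (K := K) hr A (by
    intro t s
    rw [hA]
    simp only
    rw [hR s s.2 t t.2]
    by_cases h : s = t
    · rw [if_pos h.symm, if_pos (congrArg _ h)]
    · rw [if_neg (Ne.symm h), if_neg (fun h' => h (Subtype.ext h'))])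
  set M := A.map (Int.castRingHom K) with hM
  intro y
  set z : ↥(Bs n d k (i + 1)) → K := M⁻¹.mulVec y with hz
  have hMz : M.mulVec z = y := by
    rw [hz, Matrix.mulVec_mulVec, Matrix.mul_nonsing_inv _ (isUnit_iff_ne_zero.2 hdet),
      Matrix.one_mulVec]
  refine ⟨fun p => ∑ s : ↥(Bs n d k (i + 1)),
    (R (s : Fin n →₀ ℕ) (p : Fin n →₀ ℕ) : K) * z s, ?_⟩
  funext t
  rw [Tmap_apply, coeff_el_mul]
  have h1 : ∀ c : Fin n, (if (t : Fin n →₀ ℕ) c = 0 then 0 else
      coeff ((t : Fin n →₀ ℕ) - Finsupp.single c 1)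
        (toPoly K n d k i fun p => ∑ s : ↥(Bs n d k (i + 1)),
          (R (s : Fin n →₀ ℕ) (p : Fin n →₀ ℕ) : K) * z s)) =
      ∑ s : ↥(Bs n d k (i + 1)), (if (t : Fin n →₀ ℕ) c = 0 then 0 else
        (R (s : Fin n →₀ ℕ) ((t : Fin n →₀ ℕ) - Finsupp.single c 1) : K)) * z s := by
    intro c
    by_cases hc : (t : Fin n →₀ ℕ) c = 0
    · simp only [if_pos hc, zero_mul, Finset.sum_const_zero]
    · simp only [if_neg hc]
      have h2 := coeff_toPoly (fun p : ↥(Bs n d k i) => ∑ s : ↥(Bs n d k (i + 1)),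
        (R (s : Fin n →₀ ℕ) (p : Fin n →₀ ℕ) : K) * z s) ⟨_, sub_mem_Bs t.2 hc⟩
      simp only at h2
      exact h2
  rw [Finset.sum_congr rfl fun c _ => h1 c, Finset.sum_comm]
  have h2 : M.mulVec z t = y t := congrFun hMz t
  rw [← h2, Matrix.mulVec, dotProduct]
  refine Finset.sum_congr rfl fun s _ => ?_
  rw [← Finset.sum_mul, hM, Matrix.map_apply, hA, eq_intCast]
  simp only
  congr 1
  rw [Int.cast_sum]
  refine Finset.sum_congr rfl fun c _ => ?_
  split_ifs
  · rw [Int.cast_zero]
  · rfl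

/-- Non-injectivity from a kernel vector. -/
theorem not_inj_of_vec [CharZero K] {d k i : ℕ} (hd : 1 ≤ d) (v : (Fin n →₀ ℕ) → ℤ)
    (h0 : ∃ p ∈ Bs n d k i, v p ≠ 0)
    (h : ∀ q ∈ Bs n d k (i + 1), ∑ c, (if q c = 0 then 0 else v (q - Finsupp.single c 1)) = 0) :
    ¬ InjAt K n d k i 1 := by
  classical
  intro hinj
  have h1 := Tmap_inj hd hinj
  obtain ⟨p, hp, hvp⟩ := h0
  have h2 : Tmap K n d k i (fun m => (v m : K)) = 0 := by
    funext t
    rw [Tmap_apply, coeff_el_mul, Pi.zero_apply]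
    have h3 := congrArg (fun x : ℤ => (x : K)) (h t t.2)
    simp only [Int.cast_sum, Int.cast_zero] at h3
    refine Eq.trans (Finset.sum_congr rfl fun c _ => ?_) h3
    by_cases hc : (t : Fin n →₀ ℕ) c = 0
    · rw [if_pos hc, if_pos hc, Int.cast_zero]
    · rw [if_neg hc, if_neg hc]
      have h2 := coeff_toPoly (fun m : ↥(Bs n d k i) => ((v m : ℤ) : K))
        ⟨_, sub_mem_Bs t.2 hc⟩
      simp only at h2
      exact h2
  have h3 := h1 (h2.trans (map_zero _).symm)
  have h4 := congrFun h3 ⟨p, hp⟩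
  simp only [Pi.zero_apply] at h4
  exact hvp (by exact_mod_cast h4)

/-- Outside of the top degree there is a variable leading to a monomial outside of the ideal. -/
lemma exists_inc (hn : 1 ≤ n) {d k : ℕ} (hd : 1 ≤ d) {w : Fin n →₀ ℕ} (hw : fl d w < k)
    (hlt : w.degree < (k - 1) * d + n * (d - 1)) :
    ∃ c, fl d (w + Finsupp.single c 1) < k := by
  by_contra hcon
  push Not at hcon
  have key : ∀ c, fl d (w + Finsupp.single c 1) ≤ fl d w + 1 ∧
      (w c % d ≠ d - 1 → fl d (w + Finsupp.single c 1) ≤ fl d w) := by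
    intro c
    unfold fl
    rw [← Finset.add_sum_erase _ _ (Finset.mem_univ c),
      ← Finset.add_sum_erase _ (fun j => w j / d) (Finset.mem_univ c), Finsupp.add_apply,
      Finsupp.single_eq_same]
    have h1 : ∀ j ∈ Finset.univ.erase c, (w + Finsupp.single c 1 : Fin n →₀ ℕ) j / d = w j / d := by
      intro j hj
      rw [Finsupp.add_apply, Finsupp.single_apply, if_neg (Ne.symm (Finset.ne_of_mem_erase hj)),
        add_zero]
    rw [Finset.sum_congr rfl h1]
    have h2 : (w c + 1) / d ≤ w c / d + 1 := by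
      have : (w c + 1) / d ≤ (w c + d) / d := Nat.div_le_div_right (by omega)
      rwa [Nat.add_div_right _ (by omega)] at this
    refine ⟨by omega, fun hne => ?_⟩
    have h3 : (w c + 1) / d = w c / d := by
      have h4 := Nat.mod_lt (w c) (show 0 < d by omega)
      have h5 := Nat.div_add_mod (w c) d
      apply Nat.div_eq_of_lt_le
      · have h6 : w c / d * d = d * (w c / d) := mul_comm _ _
        omega
      · have h6 : (w c / d + 1) * d = d * (w c / d) + d := by ring
        omega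
    omega
  have h1 : ∀ c, w c % d = d - 1 := by
    intro c
    by_contra hne
    have := (key c).2 hne
    have := hcon c
    omega
  have h2 : w.degree = d * fl d w + n * (d - 1) := by
    unfold fl
    rw [Finsupp.degree_eq_sum, Finset.mul_sum]
    have h3 : ∀ c, w c = d * (w c / d) + (d - 1) := by
      intro c
      have := Nat.div_add_mod (w c) d
      rw [h1 c] at this
      exact this.symm
    calc ∑ c, w c = ∑ c : Fin n, (d * (w c / d) + (d - 1)) := Finset.sum_congr rfl fun c _ => h3 c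
      _ = _ := by
        rw [Finset.sum_add_distrib, Finset.sum_const, Finset.card_univ, Fintype.card_fin,
          smul_eq_mul]
  have h3 := hcon ⟨0, hn⟩
  have h4 := (key ⟨0, hn⟩).1
  have h5 : fl d w = k - 1 := by omega
  rw [h5] at h2
  rw [h2, mul_comm d (k - 1)] at hlt
  omega

/-- Injectivity is inherited by smaller degrees. -/
theorem inj_pred (hn : 1 ≤ n) {d k i : ℕ} (hd : 1 ≤ d) (hi : i < (k - 1) * d + n * (d - 1))
    (h : InjAt K n d k (i + 1) 1) : InjAt K n d k i 1 := by
  intro f hf hJ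
  apply mem_of_coeff hd hf
  intro w hw hfl
  obtain ⟨c, hc⟩ := exists_inc hn hd hfl (by omega)
  have h1 : X c * f ∈ powIdeal K n d k := by
    apply h
    · have := (isHomogeneous_X K c).mul hf
      rwa [add_comm] at this
    · rw [mul_left_comm]
      exact Ideal.mul_mem_left _ _ hJ
  rw [mem_powIdeal hd] at h1
  have h2 := h1 _ hc
  rwa [mul_comm, coeff_mul_X] at h2

/-- Surjectivity is inherited by larger degrees. -/
theorem surj_succ {d k i : ℕ} (hd : 1 ≤ d) (h : SurjAt K n d k i 1) :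
    SurjAt K n d k (i + 1) 1 := by
  apply surj_of_monomials hd
  intro w hw _
  obtain ⟨c, hc⟩ : ∃ c, w c ≠ 0 := by
    by_contra hcon
    push Not at hcon
    have : w = 0 := Finsupp.ext hcon
    rw [this, map_zero] at hw
    omega
  have h1 := degree_sub_single hc
  obtain ⟨f, hf, hfg⟩ := h (monomial (w - Finsupp.single c 1) 1)
    (isHomogeneous_monomial _ (by omega))
  refine ⟨X c * f, ?_, ?_⟩
  · have := (isHomogeneous_X K c).mul hf
    rwa [add_comm] at this
  · have h2 : (monomial w 1 : MvPolynomial (Fin n) K) =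
        X c * monomial (w - Finsupp.single c 1) 1 := by
      rw [X, monomial_mul, one_mul, add_comm, sub_add_cancel_single hc]
    rw [h2, mul_left_comm, ← mul_sub]
    exact Ideal.mul_mem_left _ _ hfg

theorem inj_below (hn : 1 ≤ n) {d k i j : ℕ} (hd : 1 ≤ d) (hij : i ≤ j)
    (hj : j ≤ (k - 1) * d + n * (d - 1)) (h : InjAt K n d k j 1) : InjAt K n d k i 1 := by
  obtain ⟨r, rfl⟩ := Nat.exists_eq_add_of_le hij
  induction r with
  | zero => exact h
  | succ r ih => exact ih (by omega) (by omega) (inj_pred hn hd (by omega) h)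

theorem surj_above {d k i j : ℕ} (hd : 1 ≤ d) (hij : i ≤ j)
    (h : SurjAt K n d k i 1) : SurjAt K n d k j 1 := by
  obtain ⟨r, rfl⟩ := Nat.exists_eq_add_of_le hij
  induction r with
  | zero => exact h
  | succ r ih => exact surj_succ hd (ih (by omega))

end Pool.Agent.W5h40.Wlp
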