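import Pool.Agent.W5h40.Wlp.Combine
import Pool.Agent.W5h40.Wlp4.DataKer
import Pool.Agent.W5h40.Wlp4.DataSmall
import Pool.Agent.W5h40.Wlp4.DataInj
import Pool.Agent.W5h40.Wlp4.DataSurj
import Pool.Agent.Helper720.PowPosC

set_option autoImplicit false

open MvPolynomial

namespace Pool.Agent.W5h40.Wlp4

open Pool.Agent.Helper720.Pow Pool.Agent.W5h40.Wlp
open Pool.Agent.Helper720.Level (lin)

variable {K : Type*} [Field K] [CharZero K]

/-- the cases with the weak Lefschetz property -/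
def Good4 (d k : ℕ) : Prop := d = 1 ∨ k = 1 ∨ (d = 2 ∧ k ≤ 3) ∨ (d ≤ 4 ∧ k = 2)

theorem not_maxRank4 {d k i : ℕ} (hd : 1 ≤ d) (hk : 1 ≤ k) (h : ¬ Good4 d k)
    (hi : i + 1 = (k - 1) * d + 4 * (d - 1) / 2)
    {L : MvPolynomial (Fin 4) K} (hL : L.IsHomogeneous 1) :
    ¬ MaxRank (powIdeal K 4 d k) L i := by
  have h' : 2 ≤ d ∧ 2 ≤ k ∧ (d = 2 → 4 ≤ k) ∧ (d ≤ 4 → 3 ≤ k) := by
    unfold Good4 at h
    omega
  obtain ⟨h1, h2, h3, h4⟩ := h'
  have key : ∀ {k₀ i₀ : ℕ}, k₀ ≤ k → ¬ InjAt K 4 d k₀ i₀ 1 → i = i₀ + (k - k₀) * d →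
      ¬ MaxRank (powIdeal K 4 d k) L i := by
    intro k₀ i₀ hk0 hinj hi0 hm
    rcases maxRank_test hd hL hm with h5 | h5
    · exact not_inj_from (by norm_num) hd hk0 hinj hi0 h5
    · exact not_surj_mid (by norm_num) hd hk hi h5
  rcases (by omega : d = 2 ∨ d = 3 ∨ d = 4 ∨ d = 5 ∨ d = 6 ∨ 7 ≤ d) with rfl | rfl | rfl | rfl | rfl | hd7
  · exact key (h3 rfl) (not_inj_quad (by norm_num) ker24_ok) (by omega)
  · exact key (h4 (by norm_num)) (not_inj_quad (by norm_num) ker33_ok) (by omega)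
  · refine not_maxRank (by norm_num) h2 hi (Or.inl ⟨⟨6, by norm_num⟩, ?_⟩) hL
    omega
  · exact key h2 (not_inj_quad (by norm_num) ker52_ok) (by omega)
  · exact key h2 (not_inj_quad (by norm_num) ker62_ok) (by omega)
  · refine not_maxRank (by norm_num) h2 hi (Or.inl ⟨⟨2 * (d - 1), by ring⟩, ?_⟩) hL
    calc 2 * (4 - 1) ≤ (d - 1) * 1 := by omega
      _ ≤ (d - 1) * (k - 1) := Nat.mul_le_mul_left _ (by omega)

theorem rank4 {d k : ℕ} (hd : 1 ≤ d) (_hk : 1 ≤ k) (h : Good4 d k) (i : ℕ) :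
    InjAt K 4 d k i 1 ∨ SurjAt K 4 d k i 1 := by
  have hslp : HasSLP (powIdeal K 4 d k) → InjAt K 4 d k i 1 ∨ SurjAt K 4 d k i 1 := by
    intro h
    rw [hasSLP_iff hd] at h
    exact h i 1 le_rfl
  have key : ∀ {j : ℕ}, j ≤ (k - 1) * d + 4 * (d - 1) → InjAt K 4 d k j 1 →
      SurjAt K 4 d k (j + 1) 1 → InjAt K 4 d k i 1 ∨ SurjAt K 4 d k i 1 := by
    intro j hj h1 h2
    rcases Nat.lt_or_ge j i with h3 | h3
    · exact Or.inr (surj_above hd h3 h2)
    · exact Or.inl (inj_below (by norm_num) hd h3 hj h1)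
  rcases h with rfl | rfl | ⟨rfl, hk3⟩ | ⟨hd4, rfl⟩
  · exact hslp (slp_d1 (by norm_num))
  · exact hslp (slp_k1 hd)
  · rcases (by omega : k = 1 ∨ k = 2 ∨ k = 3) with rfl | rfl | rfl
    · exact hslp (slp_k1 hd)
    · exact hslp (slp_22 (by norm_num))
    · exact key (j := 5) (by norm_num) (inj_quad (by norm_num) inj23_cols inj23_ok inj23_len)
        (surj_quad (by norm_num) surj23_cols surj23_ok surj23_len)
  · rcases (by omega : d = 1 ∨ d = 2 ∨ d = 3 ∨ d = 4) with rfl | rfl | rfl | rfl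
    · exact hslp (slp_d1 (by norm_num))
    · exact hslp (slp_22 (by norm_num))
    · exact key (j := 6) (by norm_num) (inj_quad (by norm_num) inj32_cols inj32_ok inj32_len)
        (surj_quad (by norm_num) surj32_cols surj32_ok surj32_len)
    · exact key (j := 9) (by norm_num) (inj_quad (by norm_num) inj42_cols inj42_ok inj42_len)
        (surj_quad (by norm_num) surj42_cols surj42_ok surj42_len)

theorem maxRank4 {d k : ℕ} (hd : 1 ≤ d) (hk : 1 ≤ k) (h : Good4 d k) (i : ℕ)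
    {a : Fin 4 → K} (ha : ∀ c, a c ≠ 0) :
    MaxRank (powIdeal K 4 d k) (∑ c, C (a c) * X c) i := by
  rcases rank4 (K := K) hd hk h i with h1 | h1
  · left
    have := torus_inj ha hd h1
    intro f hf hJ
    apply this f hf
    rw [pow_one]
    exact hJ
  · right
    have := torus_surj ha hd h1
    intro g hg
    obtain ⟨f, hf, hfg⟩ := this g hg
    refine ⟨f, hf, ?_⟩
    rw [pow_one] at hfg
    exact hfg

end Pool.Agent.W5h40.Wlp4
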