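import Pool.Agent.W5h40.Wlp4.Gen

set_option autoImplicit false

open MvPolynomial

namespace Pool.Agent.W5h40.Wlp4

open Pool.Agent.Helper720.Pow Pool.Agent.W5h40.Wlp

variable {K : Type*} [Field K]

/-- exponents in four variables -/
abbrev Quad := ℕ × ℕ × ℕ × ℕ

/-- the exponents of degree `i` -/
def quads (i : ℕ) : List Quad :=
  (List.range (i + 1)).flatMap fun a => (List.range (i + 1 - a)).flatMap fun b =>
    (List.range (i + 1 - a - b)).map fun c => (a, b, c, i - a - b - c)

/-- the sum of the quotients by `d` -/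
def flq (d : ℕ) (q : Quad) : ℕ := q.1 / d + (q.2.1 / d + (q.2.2.1 / d + q.2.2.2 / d))

/-- the exponents outside of the ideal -/
def outq (d k i : ℕ) : List Quad := (quads i).filter fun q => Nat.blt (flq d q) k

def inc0 (q : Quad) : Quad := (q.1 + 1, q.2.1, q.2.2.1, q.2.2.2)
def inc1 (q : Quad) : Quad := (q.1, q.2.1 + 1, q.2.2.1, q.2.2.2)
def inc2 (q : Quad) : Quad := (q.1, q.2.1, q.2.2.1 + 1, q.2.2.2)
def inc3 (q : Quad) : Quad := (q.1, q.2.1, q.2.2.1, q.2.2.2 + 1)
def dec0 (q : Quad) : Quad := (q.1 - 1, q.2.1, q.2.2.1, q.2.2.2)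
def dec1 (q : Quad) : Quad := (q.1, q.2.1 - 1, q.2.2.1, q.2.2.2)
def dec2 (q : Quad) : Quad := (q.1, q.2.1, q.2.2.1 - 1, q.2.2.2)
def dec3 (q : Quad) : Quad := (q.1, q.2.1, q.2.2.1, q.2.2.2 - 1)

/-- the position of an exponent in a packed number -/
def slot (B : ℕ) (q : Quad) : ℕ := 8 * (q.1 + B * (q.2.1 + B * q.2.2.1))

/-- the positions of the successors outside of the ideal -/
def nbs (d k B : ℕ) (q : Quad) : List ℕ :=
  (([inc0 q, inc1 q, inc2 q, inc3 q].filter fun q => Nat.blt (flq d q) k).map (slot B))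

/-- the positions of the predecessors -/
def pbs (B : ℕ) (q : Quad) : List ℕ :=
  cond (Nat.beq q.1 0) [] [slot B (dec0 q)] ++ (cond (Nat.beq q.2.1 0) [] [slot B (dec1 q)] ++
    (cond (Nat.beq q.2.2.1 0) [] [slot B (dec2 q)] ++
      cond (Nat.beq q.2.2.2 0) [] [slot B (dec3 q)]))

def dsum (R : ℕ) : List ℕ → ℕ
  | [] => 0
  | x :: l => (R >>> x) % 256 + dsum R l

def row (R s : ℕ) : List (List ℕ) → ℕ → Bool
  | [], _ => true
  | c :: l, t => Nat.beq (dsum R c % 251) (cond (Nat.beq s t) 1 0) && row R s l (t + 1)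

def rowsOk (cols : List (List ℕ)) : List ℕ → ℕ → Bool
  | [], _ => true
  | R :: l, s => row R s cols 0 && rowsOk cols l (s + 1)

lemma row_spec {R s : ℕ} : ∀ {cols : List (List ℕ)} {t : ℕ}, row R s cols t = true →
    ∀ b (hb : b < cols.length), dsum R cols[b] % 251 = if s = t + b then 1 else 0 := by
  intro cols
  induction cols with
  | nil => intro t _ b hb; exact absurd hb (by simp)
  | cons c l ih =>
    intro t h b hb
    rw [row, Bool.and_eq_true, Nat.beq_eq] at h
    rcases b with _ | b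
    · rw [List.getElem_cons_zero, h.1, add_zero]
      by_cases hst : s = t
      · rw [if_pos hst, hst, Nat.beq_refl]
        rfl
      · rw [if_neg hst]
        have : Nat.beq s t = false := by
          rw [← Bool.not_eq_true, Nat.beq_eq]
          exact hst
        rw [this]
        rfl
    · rw [List.getElem_cons_succ, ih h.2 b (by simpa using hb)]
      congr 1
      rw [eq_iff_iff]
      omega

lemma rowsOk_spec {cols : List (List ℕ)} : ∀ {rows : List ℕ} {s : ℕ}, rowsOk cols rows s = true →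
    ∀ a (ha : a < rows.length) b (hb : b < cols.length),
      dsum rows[a] cols[b] % 251 = if s + a = b then 1 else 0 := by
  intro rows
  induction rows with
  | nil => intro s _ a ha; exact absurd ha (by simp)
  | cons R l ih =>
    intro s h a ha b hb
    rw [rowsOk, Bool.and_eq_true] at h
    rcases a with _ | a
    · rw [List.getElem_cons_zero, row_spec h.1 b hb, add_zero, zero_add]
    · rw [List.getElem_cons_succ, ih h.2 a (by simpa using ha) b hb]
      congr 1
      rw [eq_iff_iff]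
      omega

/-- the monomial with given exponents -/
noncomputable def mon4 (q : Quad) : Fin 4 →₀ ℕ :=
  Finsupp.equivFunOnFinite.symm ![q.1, q.2.1, q.2.2.1, q.2.2.2]

/-- the exponents of a monomial -/
def qd (w : Fin 4 →₀ ℕ) : Quad := (w 0, w 1, w 2, w 3)

lemma mon4_qd (w : Fin 4 →₀ ℕ) : mon4 (qd w) = w := by
  ext c
  fin_cases c <;> rfl

lemma qd_mon4 (q : Quad) : qd (mon4 q) = q := rfl

lemma qd_inj {v w : Fin 4 →₀ ℕ} (h : qd v = qd w) : v = w := by
  rw [← mon4_qd v, ← mon4_qd w, h]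

lemma flq_qd (d : ℕ) (w : Fin 4 →₀ ℕ) : flq d (qd w) = fl d w := by
  unfold fl flq qd
  rw [Fin.sum_univ_four]
  simp only
  omega

lemma degree4 (w : Fin 4 →₀ ℕ) : w.degree = w 0 + w 1 + w 2 + w 3 := by
  rw [Finsupp.degree_eq_sum, Fin.sum_univ_four]

lemma mem_quads {i : ℕ} {q : Quad} : q ∈ quads i ↔ q.1 + q.2.1 + q.2.2.1 + q.2.2.2 = i := by
  obtain ⟨a, b, c, e⟩ := q
  unfold quads
  simp only [List.mem_flatMap, List.mem_range, List.mem_map, Prod.mk.injEq]
  constructor
  · rintro ⟨a', ha', b', hb', c', hc', h1, h2, h3, h4⟩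
    omega
  · intro h
    exact ⟨a, by omega, b, by omega, c, by omega, rfl, rfl, rfl, by omega⟩

lemma blt_iff {a b : ℕ} : Nat.blt a b = true ↔ a < b := by
  unfold Nat.blt
  rw [Nat.ble_eq]
  exact Nat.succ_le_iff

lemma mem_outq {d k i : ℕ} {w : Fin 4 →₀ ℕ} : qd w ∈ outq d k i ↔ w ∈ Bs 4 d k i := by
  unfold outq
  rw [List.mem_filter, mem_quads, mem_Bs, degree4, blt_iff, flq_qd]
  rfl

lemma add_apply' (w : Fin 4 →₀ ℕ) (c j : Fin 4) :
    (w + Finsupp.single c 1 : Fin 4 →₀ ℕ) j = w j + if c = j then 1 else 0 := by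
  rw [Finsupp.add_apply, Finsupp.single_apply]

lemma sub_apply' (w : Fin 4 →₀ ℕ) (c j : Fin 4) :
    (w - Finsupp.single c 1 : Fin 4 →₀ ℕ) j = w j - if c = j then 1 else 0 := by
  rw [Finsupp.tsub_apply, Finsupp.single_apply]

lemma qd_add0 (w : Fin 4 →₀ ℕ) : qd (w + Finsupp.single 0 1) = inc0 (qd w) := by
  unfold qd inc0
  simp [add_apply']

lemma qd_add1 (w : Fin 4 →₀ ℕ) : qd (w + Finsupp.single 1 1) = inc1 (qd w) := by
  unfold qd inc1
  simp [add_apply']

lemma qd_add2 (w : Fin 4 →₀ ℕ) : qd (w + Finsupp.single 2 1) = inc2 (qd w) := by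
  unfold qd inc2
  simp [add_apply']

lemma qd_add3 (w : Fin 4 →₀ ℕ) : qd (w + Finsupp.single 3 1) = inc3 (qd w) := by
  unfold qd inc3
  simp [add_apply']

lemma qd_sub0 (w : Fin 4 →₀ ℕ) : qd (w - Finsupp.single 0 1) = dec0 (qd w) := by
  unfold qd dec0
  simp [sub_apply']

lemma qd_sub1 (w : Fin 4 →₀ ℕ) : qd (w - Finsupp.single 1 1) = dec1 (qd w) := by
  unfold qd dec1
  simp [sub_apply']

lemma qd_sub2 (w : Fin 4 →₀ ℕ) : qd (w - Finsupp.single 2 1) = dec2 (qd w) := by
  unfold qd dec2
  simp [sub_apply']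

lemma qd_sub3 (w : Fin 4 →₀ ℕ) : qd (w - Finsupp.single 3 1) = dec3 (qd w) := by
  unfold qd dec3
  simp [sub_apply']

/-- the digit of a packed number -/
def dig (B R : ℕ) (q : Quad) : ℕ := (R >>> slot B q) % 256

lemma dsum_append (R : ℕ) (l l' : List ℕ) : dsum R (l ++ l') = dsum R l + dsum R l' := by
  induction l with
  | nil => simp [dsum]
  | cons a l ih => rw [List.cons_append, dsum, dsum, ih, add_assoc]

lemma dsum_nbs (d k B R : ℕ) (w : Fin 4 →₀ ℕ) :
    dsum R (nbs d k B (qd w)) = ∑ c : Fin 4, if fl d (w + Finsupp.single c 1) < k then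
      dig B R (qd (w + Finsupp.single c 1)) else 0 := by
  rw [Fin.sum_univ_four]
  unfold nbs
  simp only [← flq_qd, qd_add0, qd_add1, qd_add2, qd_add3]
  have key : ∀ (q : Quad) (l : List Quad),
      dsum R (((q :: l).filter fun q => Nat.blt (flq d q) k).map (slot B)) =
        (if flq d q < k then dig B R q else 0) +
          dsum R ((l.filter fun q => Nat.blt (flq d q) k).map (slot B)) := by
    intro q l
    rw [List.filter_cons]
    by_cases h : flq d q < k
    · rw [if_pos (blt_iff.2 h), List.map_cons, dsum, if_pos h]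
      rfl
    · rw [if_neg (fun h' => h (blt_iff.1 h')), if_neg h, zero_add]
  rw [key, key, key, key]
  simp only [List.filter_nil, List.map_nil, dsum]
  omega

lemma dsum_pbs (B R : ℕ) (w : Fin 4 →₀ ℕ) :
    dsum R (pbs B (qd w)) = ∑ c : Fin 4, if w c = 0 then 0 else
      dig B R (qd (w - Finsupp.single c 1)) := by
  rw [Fin.sum_univ_four]
  unfold pbs
  simp only [qd_sub0, qd_sub1, qd_sub2, qd_sub3, dsum_append]
  have key : ∀ (a : ℕ) (q : Quad), dsum R (cond (Nat.beq a 0) [] [slot B q]) =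
      if a = 0 then 0 else dig B R q := by
    intro a q
    by_cases h : a = 0
    · rw [if_pos h, h]
      rfl
    · rw [if_neg h]
      have : Nat.beq a 0 = false := by
        rw [← Bool.not_eq_true, Nat.beq_eq]
        exact h
      rw [this]
      simp only [cond_false, dsum]
      rfl
  rw [key, key, key, key, ← add_assoc, ← add_assoc]
  rfl

lemma cast_251 {a : ℕ} {p : Prop} [Decidable p] (h : a % 251 = if p then 1 else 0) :
    ((a : ℕ) : ZMod 251) = if p then 1 else 0 := by
  split_ifs at h ⊢ with hp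
  · have : (a : ZMod 251) = ((1 : ℕ) : ZMod 251) := by
      rw [ZMod.natCast_eq_natCast_iff]
      exact h
    rw [this, Nat.cast_one]
  · have : (a : ZMod 251) = ((0 : ℕ) : ZMod 251) := by
      rw [ZMod.natCast_eq_natCast_iff]
      exact h
    rw [this, Nat.cast_zero]

/-- injectivity certificate -/
theorem inj_quad [CharZero K] {d k i B : ℕ} (hd : 1 ≤ d) {cols : List (List ℕ)} {rows : List ℕ}
    (h1 : (outq d k i).map (nbs d k B) = cols) (h2 : rowsOk cols rows 0 = true)
    (h3 : rows.length = cols.length) : InjAt K 4 d k i 1 := by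
  have hlen : (outq d k i).length = cols.length := by rw [← h1, List.length_map]
  refine inj_of_left hd (r := 251) (by norm_num) (fun s q =>
    (dig B (rows.getD ((outq d k i).idxOf (qd s)) 0) (qd q) : ℤ)) ?_
  intro s hs t ht
  have hs' := mem_outq.2 hs
  have ht' := mem_outq.2 ht
  have ha := List.idxOf_lt_length_of_mem hs'
  have hb := List.idxOf_lt_length_of_mem ht'
  set a := (outq d k i).idxOf (qd s) with hadef
  set b := (outq d k i).idxOf (qd t) with hbdef
  have hga : (outq d k i)[a] = qd s := List.getElem_idxOf ha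
  have hgb : (outq d k i)[b] = qd t := List.getElem_idxOf hb
  have hcol : cols[b]'(by omega) = nbs d k B (qd t) := by
    subst h1
    rw [List.getElem_map, hgb]
  have h4 := rowsOk_spec h2 a (by omega) b (by omega)
  rw [hcol, dsum_nbs, zero_add] at h4
  have h5 := cast_251 h4
  have h6 : rows.getD a 0 = rows[a]'(by omega) := List.getD_eq_getElem _ _ _
  rw [h6]
  push_cast at h5 ⊢
  rw [h5]
  by_cases hst : s = t
  · rw [if_pos hst, if_pos (by rw [hadef, hbdef, hst])]
  · rw [if_neg hst, if_neg]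
    intro hab
    apply hst
    apply qd_inj
    rw [← hga, ← hgb]
    congr 1

/-- surjectivity certificate -/
theorem surj_quad [CharZero K] {d k i B : ℕ} (hd : 1 ≤ d) {cols : List (List ℕ)} {rows : List ℕ}
    (h1 : (outq d k (i + 1)).map (pbs B) = cols) (h2 : rowsOk cols rows 0 = true)
    (h3 : rows.length = cols.length) : SurjAt K 4 d k i 1 := by
  have hlen : (outq d k (i + 1)).length = cols.length := by rw [← h1, List.length_map]
  refine surj_of_right hd (r := 251) (by norm_num) (fun s q =>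
    (dig B (rows.getD ((outq d k (i + 1)).idxOf (qd s)) 0) (qd q) : ℤ)) ?_
  intro s hs t ht
  have hs' := mem_outq.2 hs
  have ht' := mem_outq.2 ht
  have ha := List.idxOf_lt_length_of_mem hs'
  have hb := List.idxOf_lt_length_of_mem ht'
  set a := (outq d k (i + 1)).idxOf (qd s) with hadef
  set b := (outq d k (i + 1)).idxOf (qd t) with hbdef
  have hga : (outq d k (i + 1))[a] = qd s := List.getElem_idxOf ha
  have hgb : (outq d k (i + 1))[b] = qd t := List.getElem_idxOf hb
  have hcol : cols[b]'(by omega) = pbs B (qd t) := by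
    subst h1
    rw [List.getElem_map, hgb]
  have h4 := rowsOk_spec h2 a (by omega) b (by omega)
  rw [hcol, dsum_pbs, zero_add] at h4
  have h5 := cast_251 h4
  have h6 : rows.getD a 0 = rows[a]'(by omega) := List.getD_eq_getElem _ _ _
  rw [h6]
  push_cast at h5 ⊢
  rw [h5]
  by_cases hst : s = t
  · rw [if_pos hst, if_pos (by rw [hadef, hbdef, hst])]
  · rw [if_neg hst, if_neg]
    intro hab
    apply hst
    apply qd_inj
    rw [← hga, ← hgb]
    congr 1

/-- the entries of a kernel vector, in digits of 20 bits, up to the offset `2 ^ 19` -/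
def vdig (B R : ℕ) (q : Quad) : ℕ := (R >>> (20 * (q.1 + B * (q.2.1 + B * q.2.2.1)))) % 2 ^ 20

def vsum (B R : ℕ) (q : Quad) : ℕ :=
  cond (Nat.beq q.1 0) (2 ^ 19) (vdig B R (dec0 q)) +
    (cond (Nat.beq q.2.1 0) (2 ^ 19) (vdig B R (dec1 q)) +
      (cond (Nat.beq q.2.2.1 0) (2 ^ 19) (vdig B R (dec2 q)) +
        cond (Nat.beq q.2.2.2 0) (2 ^ 19) (vdig B R (dec3 q))))

def kerOk (d k i B R : ℕ) : Bool :=
  ((outq d k (i + 1)).all fun q => Nat.beq (vsum B R q) (4 * 2 ^ 19)) &&
    ((outq d k i).any fun q => !(Nat.beq (vdig B R q) (2 ^ 19)))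

/-- kernel certificate -/
theorem not_inj_quad [CharZero K] {d k i B R : ℕ} (hd : 1 ≤ d) (h : kerOk d k i B R = true) :
    ¬ InjAt K 4 d k i 1 := by
  unfold kerOk at h
  rw [Bool.and_eq_true, List.all_eq_true, List.any_eq_true] at h
  obtain ⟨h1, q₀, hq₀, h2⟩ := h
  refine not_inj_of_vec hd (fun w => (vdig B R (qd w) : ℤ) - 2 ^ 19) ?_ ?_
  · refine ⟨mon4 q₀, ?_, ?_⟩
    · rw [← mem_outq, qd_mon4]
      exact hq₀
    · rw [qd_mon4]
      intro h3
      rw [Bool.not_eq_true', ← Bool.not_eq_true, Nat.beq_eq] at h2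
      apply h2
      have : (vdig B R q₀ : ℤ) = ((2 ^ 19 : ℕ) : ℤ) := by
        push_cast
        linarith
      exact_mod_cast this
  · intro w hw
    have h3 := h1 _ (mem_outq.2 hw)
    rw [Nat.beq_eq] at h3
    rw [Fin.sum_univ_four, qd_sub0, qd_sub1, qd_sub2, qd_sub3]
    have key : ∀ (a x : ℕ), (if a = 0 then (0 : ℤ) else (x : ℤ) - 2 ^ 19) =
        ((cond (Nat.beq a 0) (2 ^ 19) x : ℕ) : ℤ) - 2 ^ 19 := by
      intro a x
      by_cases h : a = 0
      · rw [if_pos h, h]
        norm_num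
      · rw [if_neg h]
        have : Nat.beq a 0 = false := by
          rw [← Bool.not_eq_true, Nat.beq_eq]
          exact h
        rw [this]
        rfl
    rw [key, key, key, key]
    have h4 := congrArg (fun x : ℕ => (x : ℤ)) h3
    unfold vsum at h4
    simp only [qd] at h4 ⊢
    push_cast at h4 ⊢
    linarith

end Pool.Agent.W5h40.Wlp4
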